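import Mathlib
import Pool.Agent.Lib.MP_eb0266_gt.Stmt

/-!
# MP_eb0266_gt: the Dyer-Lashof operations on `π_* (HF_p ∧_{MU} HF_p)`

The definitions are in `Pool.Agent.Lib.MP_eb0266_gt.Defs` and `Pool.Agent.Lib.MP_eb0266_gt.Stmt`. `F` is the universal
commutative formal group law, over the Lazard ring `L = π_* MU`; `I = bigI F p` is the kernel of `π_* MU → F_p`;
`AR F p` is the exterior algebra of `I / I²`, that is `π_* (HF_p ∧_{MU} HF_p)`; `sgm F p y` is the suspension
`σ y`, of degree `|y| + 1`.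

The theorem: there is exactly one Tate-valued Frobenius `φ` (on coefficients), and exactly one family of operations
`Q^s`, `β Q^s` with the properties `IsDyerLashof`; `β Q^s = 0` for all `s`; Lazard generators `x_n` exist; the
`σ x_n` form a basis of `I / I²`; and `Q^s σ x_n = dl p n s • σ x_{n + s(p-1)}` (for `p = 2` this is `Q^{2s}`), where
for `m = n + s(p-1)`

* `dl p n s = 0` if `s ≤ n`, and otherwise
* if neither `n + 1` nor `m + 1` is a power of `p`: `dl p n s = (-1)^{s+n+1} binom(s-1, n)`;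
* if `n + 1` is a power of `p` and `m + 1` is not: `dl p n s = 0`;
* if `m + 1` is a power of `p`: `dl p n s` is `(-1)^s` if `n = 0`, `-(-1)^s` if `n + 1 = p^i`, `i ≥ 1`,
  `(-1)^s / ∏ a_i!` if `n + 1 = ∑ a_i p^i` (base `p` digits) with `∑ a_i = p`, and `0` for all other `n`.
-/

namespace Pool.Agent.Results.MP_eb0266_gt.DyerLashof

open Pool.Agent.MUDL

theorem result (p : ℕ) [Fact p.Prime] (L : Type) [CommRing L] (F : FormalGroup L)
    (hF : IsUniversal F) :
    ∃ φ : L →+* TateR F p, (∀ ψ : L →+* TateR F p, IsFrobT F p ψ ↔ ψ = φ) ∧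
    ∃ Q : ℤ → AR F p → AR F p,
      (∀ Q' B' : ℤ → AR F p → AR F p, IsDyerLashof F p φ Q' B' ↔ Q' = Q ∧ B' = fun _ _ => 0) ∧
      (∃ x, IsGen F p x) ∧ ∀ (x : ℕ → L) (hx : IsGen F p x), Values F p Q x hx :=
  mainT p L F hF

end Pool.Agent.Results.MP_eb0266_gt.DyerLashof
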